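import Pool.Agent.Y228.PG.Reg
import Pool.Agent.Y228.PK.Cf4
import Pool.Agent.Y231.N4.F7

/-!
# Generic coefficients in four variables: the recurrences for all polydiscs
-/

set_option autoImplicit false

namespace Pool.Agent.Y228.PG

open MvPolynomial Filter Pool.Agent.H628R4.TP Pool.Agent.W425.MM Pool.Agent.W425.GN
open Pool.Agent.W425.ND (spa)
open Pool.Agent.W426.SM (gord IsRay face)
open Pool.Agent.W425.BF (B1 BD shf shf_eval shf_ne hz hz_support hz_eq cof spa_add)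
open Pool.Agent.W425.SV (NP RelV Kil1)
open Pool.Agent.TH216.MF
open Pool.Agent.TH216.LX
open Pool.Agent.Y231.N4
open Pool.Agent.Y228.PK

variable {r s N : ℕ}

/-- the weights, exponents over the convex hull -/
lemma wt_phiJ (v : Fin r → Fin N → ℕ) (w : Fin s → Fin N → ℕ) (J : Finset (Fin N))
    (hb : ∀ l, InN v Finset.univ (w l)) (e : Finset (Fin (r + s)) → ℂ) (t : ℤ)
    (x : Fin N → ℕ) (hxJ : ∀ i, x i ≠ 0 ↔ i ∈ J) :
    Wt v (fun τ => e (PhiJ v w J τ)) t x = Wt (Fin.append v w) e t x := by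
  classical
  have hpair : ∀ c : Fin r → ℝ, ∑ j, c j * ((∑ i, x i * v j i : ℕ) : ℝ) =
      ∑ i, (x i : ℝ) * ∑ j, c j * (v j i : ℝ) := fun c => inN_pair v c x
  have hle : (∀ j, t ≤ ((∑ i, x i * v j i : ℕ) : ℤ)) → ∀ l,
      t ≤ ((∑ i, x i * w l i : ℕ) : ℤ) := by
    intro h l
    obtain ⟨c, h1, h2, h3, -⟩ := hb l
    have h4 : (t : ℝ) ≤ ((∑ i, x i * w l i : ℕ) : ℝ) := by
      calc (t : ℝ) = ∑ j, c j * (t : ℝ) := by rw [← Finset.sum_mul, h2, one_mul]
        _ ≤ ∑ j, c j * ((∑ i, x i * v j i : ℕ) : ℝ) := by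
            refine Finset.sum_le_sum fun j _ => mul_le_mul_of_nonneg_left ?_ (h1 j)
            exact_mod_cast h j
        _ = ∑ i, (x i : ℝ) * ∑ j, c j * (v j i : ℝ) := hpair c
        _ ≤ ∑ i, (x i : ℝ) * (w l i : ℝ) := Finset.sum_le_sum fun i _ =>
            mul_le_mul_of_nonneg_left (h3 i) (by positivity)
        _ = ((∑ i, x i * w l i : ℕ) : ℝ) := by push_cast; rfl
    exact_mod_cast h4
  unfold Wt
  by_cases h : ∀ j, t ≤ ((∑ i, x i * v j i : ℕ) : ℤ)
  swap
  · rw [if_neg h, if_neg]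
    intro h'
    apply h
    intro j
    have := h' (Fin.castAdd s j)
    rw [Fin.append_left] at this
    exact this
  rw [if_pos h, if_pos]
  swap
  · intro j
    refine Fin.addCases (fun j => ?_) (fun l => ?_) j
    · rw [Fin.append_left]
      exact h j
    · rw [Fin.append_right]
      exact hle h l
  beta_reduce
  congr 1
  ext j
  refine Fin.addCases (fun j => ?_) (fun l => ?_) j
  · rw [phiJ_left, Finset.mem_filter, Finset.mem_filter, Fin.append_left]
    simp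
  · rw [phiJ_right, Finset.mem_filter, Fin.append_right]
    simp only [Finset.mem_univ, true_and]
    constructor
    · rintro ⟨c, h1, h2, h3, h4⟩
      have h5 : ((∑ i, x i * w l i : ℕ) : ℝ) = (t : ℝ) := by
        calc ((∑ i, x i * w l i : ℕ) : ℝ) = ∑ i, (x i : ℝ) * (w l i : ℝ) := by push_cast; rfl
          _ = ∑ i, (x i : ℝ) * ∑ j, c j * (v j i : ℝ) := by
              refine Finset.sum_congr rfl fun i _ => ?_
              by_cases hi : i ∈ J
              · rw [h4 i hi]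
              · have : x i = 0 := by
                  by_contra h6
                  exact hi ((hxJ i).1 h6)
                rw [this, Nat.cast_zero, zero_mul, zero_mul]
          _ = ∑ j, c j * ((∑ i, x i * v j i : ℕ) : ℝ) := (hpair c).symm
          _ = ∑ j, c j * (t : ℝ) := by
              refine Finset.sum_congr rfl fun j _ => ?_
              by_cases hj : j ∈ (Finset.univ.filter fun j : Fin r =>
                ((∑ i, x i * v j i : ℕ) : ℤ) = t)
              · have h6 := (Finset.mem_filter.1 hj).2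
                have h7 : ((∑ i, x i * v j i : ℕ) : ℝ) = (t : ℝ) := by exact_mod_cast h6
                rw [h7]
              · rw [h2 j hj, zero_mul, zero_mul]
          _ = (t : ℝ) := by rw [← Finset.sum_mul, h3, one_mul]
      exact_mod_cast h5
    · intro hl
      obtain ⟨c, h1, h2, h3, -⟩ := hb l
      have hl' : ((∑ i, x i * w l i : ℕ) : ℝ) = (t : ℝ) := by exact_mod_cast hl
      have e1 : (t : ℝ) = ∑ j, c j * (t : ℝ) := by rw [← Finset.sum_mul, h2, one_mul]
      have e2 : ∑ j, c j * (t : ℝ) ≤ ∑ j, c j * ((∑ i, x i * v j i : ℕ) : ℝ) := by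
        refine Finset.sum_le_sum fun j _ => mul_le_mul_of_nonneg_left ?_ (h1 j)
        exact_mod_cast h j
      have e3 : ∑ i, (x i : ℝ) * ∑ j, c j * (v j i : ℝ) ≤ ∑ i, (x i : ℝ) * (w l i : ℝ) :=
        Finset.sum_le_sum fun i _ => mul_le_mul_of_nonneg_left (h3 i) (by positivity)
      have e4 : ∑ i, (x i : ℝ) * (w l i : ℝ) = (t : ℝ) := by
        rw [← hl']
        push_cast
        rfl
      rw [hpair c] at e2
      have e5 : ∑ j, c j * (((∑ i, x i * v j i : ℕ) : ℝ) - (t : ℝ)) = 0 := by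
        simp only [mul_sub]
        rw [Finset.sum_sub_distrib, hpair c, ← e1]
        linarith
      have e6 : ∑ i, (x i : ℝ) * ((w l i : ℝ) - ∑ j, c j * (v j i : ℝ)) = 0 := by
        simp only [mul_sub]
        rw [Finset.sum_sub_distrib, e4]
        linarith
      refine ⟨c, h1, fun j hj => ?_, h2, fun i hi => ?_⟩
      · have h7 := (Finset.sum_eq_zero_iff_of_nonneg fun j _ => mul_nonneg (h1 j) (by
          rw [sub_nonneg]
          exact_mod_cast h j)).1 e5 j (Finset.mem_univ j)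
        rcases mul_eq_zero.1 h7 with h8 | h8
        · exact h8
        · exfalso
          apply hj
          rw [Finset.mem_filter]
          refine ⟨Finset.mem_univ j, ?_⟩
          rw [sub_eq_zero] at h8
          exact_mod_cast h8
      · have h7 := (Finset.sum_eq_zero_iff_of_nonneg fun i _ => mul_nonneg (by positivity)
          (sub_nonneg.2 (h3 i))).1 e6 i (Finset.mem_univ i)
        rcases mul_eq_zero.1 h7 with h8 | h8
        · exfalso
          exact (hxJ i).2 hi (by exact_mod_cast h8)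
        · linarith

/-- the coefficients -/
lemma aL_phiJ (v : Fin r → Fin N → ℕ) (w : Fin s → Fin N → ℕ) (J : Finset (Fin N))
    (hb : ∀ l, InN v Finset.univ (w l)) (q : ℕ) (e : Finset (Fin (r + s)) → ℂ)
    (κ : Fin N → ℕ) (hκ : ∀ i ∈ J, 1 ≤ κ i) (t : ℤ) :
    aL q v (fun τ => e (PhiJ v w J τ)) J κ t = aL q (Fin.append v w) e J κ t := by
  classical
  unfold aL
  refine tsum_congr fun x => ?_
  by_cases hx : (∀ i, i ∉ J → x i = 0) ∧ ∀ i ∈ J, κ i ≤ x i
  swap
  · rw [if_neg hx, if_neg hx]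
  rw [if_pos hx, if_pos hx]
  have hxJ : ∀ i, x i ≠ 0 ↔ i ∈ J := by
    intro i
    constructor
    · intro h
      by_contra hi
      exact h (hx.1 i hi)
    · intro hi
      have h1 := hx.2 i hi
      have h2 := hκ i hi
      omega
  rw [wt_phiJ v w J hb e t x hxJ]

/-- only the faces with positive normal vectors -/
lemma aK_adm (q : ℕ) (v : Fin r → Fin N → ℕ) (hr : 0 < r) (e e' : Finset (Fin r) → ℂ)
    (h : ∀ τ, Adm v τ → e τ = e' τ) (κ : Fin N → ℕ) (hκ : ∀ i, 1 ≤ κ i) (t : ℤ) :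
    aK q v e κ t = aK q v e' κ t := by
  classical
  unfold aK
  refine tsum_congr fun x => ?_
  by_cases hx : ∀ i, κ i ≤ x i
  swap
  · rw [if_neg hx, if_neg hx]
  rw [if_pos hx, if_pos hx]
  congr 1
  unfold Wt
  by_cases h1 : ∀ j, t ≤ ((∑ i, x i * v j i : ℕ) : ℤ)
  swap
  · rw [if_neg h1, if_neg h1]
  rw [if_pos h1, if_pos h1]
  refine h _ ⟨x, fun i => lt_of_lt_of_le (hκ i) (hx i), fun j hj => ?_⟩
  have h2 := (Finset.mem_filter.1 hj).2
  unfold face
  refine le_antisymm ?_ (Pool.Agent.W803.SM.gord_le v x j)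
  obtain ⟨k, hk⟩ := Pool.Agent.W803.SM.exists_gord hr v x
  rw [← hk]
  have h3 := h1 k
  rw [← h2] at h3
  exact_mod_cast h3

/-- the recurrence at the level two, for all `κ` -/
theorem recKT (q : ℕ) (hq : 2 ≤ q) (hr : 0 < r) {v : Fin r → Fin 4 → ℕ} (hV : Vert v)
    (p : Polynomial ℂ)
    (θ : Fin r → ℤ) (hrel : RelG v (Kil1 v) (KilU v θ) p)
    (e : Finset (Fin r) → ℂ)
    (he1 : KRelJ q v Finset.univ e) (he2 : KRelB q v e) (T0 : ℂ) (hT0 : T0 ≠ 0)
    (hp : p.eval ((-Real.log ‖T0‖ / Real.log q : ℝ) : ℂ) ≠ 0)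
    (hlog : Real.log ‖T0‖ / Real.log q = 2) (hσ : HypT v) : RecK q v e T0 := by
  have hp0 : p ≠ 0 := by
    rintro rfl
    exact hp Polynomial.eval_zero
  set D : ℤ := ∑ j, |θ j| with hD
  have hθD : ∀ j, 0 ≤ D - θ j := by
    intro j
    have h1 := Finset.single_le_sum (f := fun j => |θ j|) (fun j _ => abs_nonneg _)
      (Finset.mem_univ j)
    have h3 := le_abs_self (θ j)
    have h4 : |θ j| ≤ D := h1
    linarith
  obtain ⟨Q, hQ, hZ⟩ := coreU q hq v p θ D (fun j => (D - θ j).toNat)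
    (fun j => Int.toNat_of_nonneg (hθD j)) hrel _ (kern_univ hq v _ (krelJ_eT hV q e he1)) T0 hT0
    hp0 (critT q hq hV e he1 he2 T0 hT0 _ hlog hσ)
  have h0 : p.rootMultiplicity ((-Real.log ‖T0‖ / Real.log q : ℝ) : ℂ) = 0 :=
    Polynomial.rootMultiplicity_eq_zero hp
  refine ⟨Q, hQ, fun κ hκ => ?_⟩
  have hZ := hZ (wK q v fun i => κ i - 1)
  rw [h0, pow_zero, mul_one, mul_assoc (kE _), wJ_wK q v κ hκ] at hZ
  have h1 := rec_aK q hq v (eT q v e) κ Q hZ
  filter_upwards [h1] with t ht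
  rw [← ht]
  refine Finset.sum_congr rfl fun m _ => ?_
  rw [aK_adm q v hr e (eT q v e) (fun τ hτ => (eT_adm q v e τ hτ).symm) κ hκ]

/-- the recurrences at the bad levels, `J = univ` -/
theorem hb_5K (hr : 0 < r) {F : Type} [Field F] (v : Fin r → Fin 4 → ℕ) (hV : Vert v)
    (hv : Function.Injective v) (h : MvPolynomial (Fin 4) F)
    (hh : ∀ w ∈ h.support, InN v Finset.univ (fun i => w i))
    (hvh : ∀ w ∈ h.support, ∀ j, ¬ ∀ x, w x = v j x) (P : ℚ → Prop)
    (hP : ∀ α, ¬ P α → ∃ (θ : Fin r → ℤ) (p : Polynomial ℂ),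
      RelG v (Kil1 v) (KilU v θ) p ∧ p.eval (α : ℂ) ≠ 0)
    (q : ℕ) (hq : 2 ≤ q)
    (e : Finset (Fin (r + h.support.card)) → ℂ)
    (he : KRelJ q (Fin.append v (we h)) Finset.univ e) (he' : KRelB q (Fin.append v (we h)) e)
    (T0 : ℂ) (hT0 : T0 ≠ 0) (σ : ℚ)
    (hσ : HypL v σ ∧ ¬ P (-σ)) (hlog : Real.log ‖T0‖ / Real.log q = (σ : ℝ)) :
    RecK q (Fin.append v (we h)) e T0 := by
  classical
  obtain ⟨hL, hPσ⟩ := hσ
  have hminj := append_inj v hv h hvh
  have hma : ∀ j', ∃ j, Fin.append v (we h) j = v j' := fun j' =>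
    ⟨Fin.castAdd _ j', by rw [Fin.append_left]⟩
  have hmb : ∀ j, InN v Finset.univ (Fin.append v (we h) j) := by
    intro j
    refine Fin.addCases (fun j => ?_) (fun l => ?_) j
    · rw [Fin.append_left]
      exact inN_self v Finset.univ j
    · rw [Fin.append_right]
      exact hh _ (h.support.equivFin.symm l).2
  obtain ⟨θ, p, hrel, hp⟩ := hP _ hPσ
  have he1 := krelJ_phi (Fin.append v (we h)) v hminj hma q Finset.univ e he
  have he2 := krelB_phi (Fin.append v (we h)) v (by omega) hr hma hmb q e he'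
  have h1 : ((-Real.log ‖T0‖ / Real.log q : ℝ) : ℂ) = ((-σ : ℚ) : ℂ) := by
    rw [neg_div, hlog]
    push_cast
    rfl
  have hrec : RecK q v (fun τ => e (PhiC (Fin.append v (we h)) v τ)) T0 := by
    rcases hL with hL | ⟨hσ2, hT⟩
    · exact recK4 q hq v p θ hrel _ he1 he2 T0 hT0 (by rw [h1]; exact hp)
        (by rw [hlog]; exact hL)
    · refine recKT q hq hr hV p θ hrel _ he1 he2 T0 hT0 (by rw [h1]; exact hp) ?_ hT
      rw [hlog, hσ2]
      norm_num
  obtain ⟨Q, hQ, hrec⟩ := hrec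
  refine ⟨Q, hQ, fun κ hκ => ?_⟩
  filter_upwards [hrec κ hκ] with t ht
  rw [← ht]
  refine Finset.sum_congr rfl fun m _ => ?_
  rw [aK_phiN (Fin.append v (we h)) v (by omega) hr hma hmb q e κ hκ]

/-- the recurrences at the bad levels for the strata `J ≠ univ` -/
theorem hb_JL {F : Type} [Field F] (v : Fin r → Fin 4 → ℕ)
    (h : MvPolynomial (Fin 4) F) (hr : 0 < r)
    (hh : ∀ w ∈ h.support, InN v Finset.univ (fun i => w i))
    (P : ℚ → Prop)
    (hP : ∀ α, ¬ P α → ∃ (θ : Fin r → ℤ) (p : Polynomial ℂ),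
      RelG v (Kil1 v) (KilU v θ) p ∧ p.eval (α : ℂ) ≠ 0) (J : Finset (Fin 4))
    (hJ : J ≠ Finset.univ)
    (hG : (∃ j, ∀ i ∈ J, v j i = 0) ∨
      ∀ w ∈ h.support, ∀ j, ∀ i ∈ J, v j i = 1 → ∃ x ∈ J, w x ≠ v j x)
    (q : ℕ) (hq : 2 ≤ q)
    (e : Finset (Fin (r + h.support.card)) → ℂ)
    (he : KRelJ q (Fin.append v (we h)) J e)
    (T0 : ℂ) (hT0 : T0 ≠ 0) (σ : ℚ)
    (hσ : HypL v σ ∧ ¬ P (-σ))
    (h2 : σ = 2 → ∀ i ∈ J, ∀ l ∈ J, i ≠ l → ∃ j, v j i = 0 ∧ v j l = 0)
    (hlog : Real.log ‖T0‖ / Real.log q = (σ : ℝ)) :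
    RecL q (Fin.append v (we h)) e J T0 := by
  classical
  rcases hG with ⟨j, hj⟩ | hsep
  · exact recL_zero (by omega) q _ e J T0 ⟨Fin.castAdd _ j, fun i hi => by
      rw [Fin.append_left]
      exact hj i hi⟩
  obtain ⟨hL, hPσ⟩ := hσ
  obtain ⟨θ, p, hrel, hp⟩ := hP _ hPσ
  have h1 : ((-Real.log ‖T0‖ / Real.log q : ℝ) : ℂ) = ((-σ : ℚ) : ℂ) := by
    rw [neg_div, hlog]
    push_cast
    rfl
  have he1 : KRelJ q v J (fun τ => e (PhiJ v (we h) J τ)) := by
    refine krelJ_phiJ v (we h) J (fun l j i hi hji => ?_) q e he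
    exact hsep _ (h.support.equivFin.symm l).2 j i hi hji
  have hrec : RecL q v (fun τ => e (PhiJ v (we h) J τ)) J T0 := by
    rcases hL with hL | ⟨hσ2, hT⟩
    · exact recL4J q hq v p θ hrel _ J hJ he1 T0 hT0 (by rw [h1]; exact hp)
        (by rw [hlog]; exact hL)
    · refine recLTJ q hq p θ hrel _ J (h2 hσ2) he1 T0 hT0
        (by rw [h1]; exact hp) ?_ hT
      rw [hlog, hσ2]
      norm_num
  obtain ⟨Q, hQ, hrec⟩ := hrec
  refine ⟨Q, hQ, fun κ hκ => ?_⟩
  filter_upwards [hrec κ hκ] with t ht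
  rw [← ht]
  refine Finset.sum_congr rfl fun m _ => ?_
  rw [aL_phiJ v (we h) J (fun l => hh _ (h.support.equivFin.symm l).2) q e κ hκ]

end Pool.Agent.Y228.PG
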