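import Pool.Agent.Y228.PK.Rec
import Pool.Agent.Y228.GN.Phi

/-!
# The recurrences for the points `x ≥ κ` with support `J`
-/

set_option autoImplicit false

namespace Pool.Agent.Y228.PG

open MvPolynomial Filter Pool.Agent.W425.SV
open Pool.Agent.TH216.MF
open Pool.Agent.TH216.ND
open Pool.Agent.TH216.LX (InN inN_pair)
open Pool.Agent.TH216.HD (Spans)
open Pool.Agent.W426.SM (gord face)
open Pool.Agent.W803.SM (filt gord_le exists_gord mem_filt filt_nonempty summable_half)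
open Pool.Agent.Y231.N4
open Pool.Agent.Y228.PK
open Pool.Agent.Y228.ND4
open Pool.Agent.Y228.GN

variable {r N : ℕ}

/-- the coefficients, for the points `x ≥ κ` with support in `J` -/
noncomputable def aL (q : ℕ) (v : Fin r → Fin N → ℕ) (e : Finset (Fin r) → ℂ)
    (J : Finset (Fin N)) (κ : Fin N → ℕ) (t : ℤ) : ℂ :=
  ∑' x : Fin N → ℕ, open Classical in if (∀ i, i ∉ J → x i = 0) ∧ ∀ i ∈ J, κ i ≤ x i then
    (q : ℂ)⁻¹ ^ (∑ i, x i) * Wt v e t x else 0

/-- the vector `κ` on `J` -/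
def kJ (J : Finset (Fin N)) (κ : Fin N → ℕ) : Fin N → ℕ :=
  fun i => open Classical in if i ∈ J then κ i else 0

lemma coeff_aL (q : ℕ) (v : Fin r → Fin N → ℕ) (e : Finset (Fin r) → ℂ) (J : Finset (Fin N))
    (κ : Fin N → ℕ) (t : ℤ) (x : Fin N →₀ ℕ) : MvPowerSeries.coeff x
      (gen q v (act r ((∏ i ∈ J, (C ((q : ℂ)⁻¹) * ∏ j, X j ^ v j i) ^ κ i) * kE e)
        (FG fun _ => 1)) (Jᶜ) (t + 1)) = open Classical in if ∀ i ∈ Jᶜ, x i = 0 then
      (q : ℂ)⁻¹ ^ (∑ i, (x i + kJ J κ i)) * Wt v e t (fun i => x i + kJ J κ i) else 0 := by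
  classical
  rw [coeff_gen]
  split_ifs with hx
  swap
  · rfl
  rw [act_mul, act_wK q v κ _ J]
  have h1 : ∀ z : Fin N →₀ ℕ, act r (kE e) (FG fun _ => 1)
      (fun j => ∑ i, (z i : ℤ) * (v j i : ℤ) - (t + 1)) = Wt v e t (fun i => z i) := by
    intro z
    have h2 := coeff_aT q v e t z
    rw [coeff_gen, if_pos (by simp)] at h2
    by_cases hq : (q : ℂ)⁻¹ ^ (∑ i, z i) = 0
    · -- independent of `q`
      have h3 := coeff_aT 1 v e t z
      rw [coeff_gen, if_pos (by simp)] at h3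
      simpa using h3
    · exact mul_left_cancel₀ hq h2
  have h2 := h1 (Finsupp.equivFunOnFinite.symm fun i => x i + kJ J κ i)
  have hs : ∀ f : Fin N → ℤ, ∑ i ∈ J, (κ i : ℤ) * f i = ∑ i, (kJ J κ i : ℤ) * f i := by
    intro f
    rw [← Finset.sum_subset (Finset.subset_univ J) fun i _ hi => by
      unfold kJ
      rw [if_neg hi]
      simp]
    exact Finset.sum_congr rfl fun i hi => by
      unfold kJ
      rw [if_pos hi]
  have h3 : (fun j => ∑ i, (x i : ℤ) * (v j i : ℤ) - (t + 1) +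
      ∑ i ∈ J, (κ i : ℤ) * (v j i : ℤ)) =
      fun j => ∑ i, (((Finsupp.equivFunOnFinite.symm fun i => x i + kJ J κ i) i : ℕ) : ℤ) *
        (v j i : ℤ) - (t + 1) := by
    funext j
    rw [hs]
    simp only [Finsupp.equivFunOnFinite_symm_apply_apply]
    push_cast
    simp only [add_mul, Finset.sum_add_distrib]
    ring
  rw [h3, h2]
  have h5 : ∑ i, (x i + kJ J κ i) = ∑ i, x i + ∑ i ∈ J, κ i := by
    rw [Finset.sum_add_distrib]
    congr 1
    rw [← Finset.sum_subset (Finset.subset_univ J) fun i _ hi => by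
      unfold kJ
      rw [if_neg hi]]
    exact Finset.sum_congr rfl fun i hi => by
      unfold kJ
      rw [if_pos hi]
  rw [h5, pow_add]
  simp only [Finsupp.equivFunOnFinite_symm_apply_apply]
  ring

lemma summable_aL (q : ℕ) (hq : 2 ≤ q) (v : Fin r → Fin N → ℕ) (e : Finset (Fin r) → ℂ)
    (J : Finset (Fin N)) (κ : Fin N → ℕ) (t : ℤ) :
    Summable fun x : Fin N → ℕ => open Classical in
      if (∀ i, i ∉ J → x i = 0) ∧ ∀ i ∈ J, κ i ≤ x i then
      (q : ℂ)⁻¹ ^ (∑ i, x i) * Wt v e t x else 0 := by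
  classical
  refine Summable.of_norm_bounded (g := fun x : Fin N → ℕ => (∏ i, ((1 : ℝ) / 2) ^ x i) *
    ∑ J, ‖e J‖) (summable_half.mul_right _) fun x => ?_
  have hn : 0 ≤ ∑ J, ‖e J‖ := Finset.sum_nonneg fun _ _ => norm_nonneg _
  split_ifs
  · rw [norm_mul]
    exact mul_le_mul (norm_pow_inv q hq x) (norm_Wt v e t x) (norm_nonneg _) (by positivity)
  · rw [norm_zero]
    exact mul_nonneg (Finset.prod_nonneg fun i _ => by positivity) hn

/-- the multiplier -/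
noncomputable def wL (q : ℕ) (v : Fin r → Fin N → ℕ) (J : Finset (Fin N)) (κ : Fin N → ℕ) :
    MvPolynomial (Fin r) ℂ :=
  (∏ i ∈ Jᶜ, elm q v i) * ∏ i ∈ J, (C ((q : ℂ)⁻¹) * ∏ j, X j ^ v j i) ^ κ i

lemma hasReg_aL (q : ℕ) (hq : 2 ≤ q) (v : Fin r → Fin N → ℕ) (e : Finset (Fin r) → ℂ)
    (J : Finset (Fin N)) (κ : Fin N → ℕ) (t : ℤ) :
    HasReg (gen q v (act r (kE e * wL q v J κ) (FG fun _ => 1)) ∅ (t + 1))
      (aL q v e J κ t) := by
  classical
  have e0 : kE e * wL q v J κ = (∏ i ∈ Jᶜ, elm q v i) *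
      ((∏ i ∈ J, (C ((q : ℂ)⁻¹) * ∏ j, X j ^ v j i) ^ κ i) * kE e) := by
    unfold wL
    ring
  rw [e0, act_mul]
  refine stokes_all q v _ _ ∅ _ _ (fun g => ?_) (Finset.disjoint_empty_right _) ?_
  · rw [← act_mul]
    exact tame_one q hq v _
  rw [Finset.union_empty]
  obtain ⟨c, hc⟩ := (tame_one q hq v
    ((∏ i ∈ J, (C ((q : ℂ)⁻¹) * ∏ j, X j ^ v j i) ^ κ i) * kE e)).reg (Jᶜ) (t + 1)
  set f : (Fin N → ℕ) → ℂ := fun x => if (∀ i, i ∉ J → x i = 0) ∧ ∀ i ∈ J, κ i ≤ x i then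
      (q : ℂ)⁻¹ ^ (∑ i, x i) * Wt v e t x else 0 with hf
  have hinj : Function.Injective fun x : Fin N →₀ ℕ => (fun i => x i + kJ J κ i : Fin N → ℕ) := by
    intro x y hxy
    ext i
    have := congrFun hxy i
    simp only at this
    omega
  have h1 : (fun x : Fin N →₀ ℕ => MvPowerSeries.coeff x
      (gen q v (act r ((∏ i ∈ J, (C ((q : ℂ)⁻¹) * ∏ j, X j ^ v j i) ^ κ i) * kE e)
        (FG fun _ => 1)) (Jᶜ) (t + 1))) = fun x : Fin N →₀ ℕ => f (fun i => x i + kJ J κ i) := by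
    funext x
    rw [coeff_aL]
    simp only [hf]
    have h2 : (∀ i ∈ Jᶜ, x i = 0) ↔ (∀ i, i ∉ J → x i + kJ J κ i = 0) ∧
        ∀ i ∈ J, κ i ≤ x i + kJ J κ i := by
      constructor
      · intro h
        refine ⟨fun i hi => ?_, fun i hi => ?_⟩
        · have h3 := h i (Finset.mem_compl.2 hi)
          unfold kJ
          rw [if_neg hi, h3]
        · unfold kJ
          rw [if_pos hi]
          omega
      · rintro ⟨h, -⟩ i hi
        have := h i (Finset.mem_compl.1 hi)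
        omega
    by_cases h3 : ∀ i ∈ Jᶜ, x i = 0
    · rw [if_pos h3, if_pos (h2.1 h3)]
    · rw [if_neg h3, if_neg fun h => h3 (h2.2 h)]
  have hfs : Summable f := summable_aL q hq v e J κ t
  have hsum : HasSum (fun x : Fin N →₀ ℕ => f (fun i => x i + kJ J κ i)) (∑' x, f x) := by
    refine (hinj.hasSum_iff (f := f) (a := ∑' x, f x) ?_).2 hfs.hasSum
    intro x hx
    simp only [hf]
    rw [if_neg]
    rintro ⟨h, h'⟩
    apply hx
    refine ⟨Finsupp.equivFunOnFinite.symm fun i => x i - kJ J κ i, ?_⟩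
    funext i
    simp only [Finsupp.equivFunOnFinite_symm_apply_apply]
    by_cases hi : i ∈ J
    · have := h' i hi
      unfold kJ
      rw [if_pos hi]
      omega
    · unfold kJ
      rw [if_neg hi]
      omega
  have h3 := hc.hasSum (by rw [h1]; exact hsum.summable)
  rw [h1, hsum.tsum_eq] at h3
  have h4 : aL q v e J κ t = c := h3
  rw [h4]
  exact hc

/-- the recurrences, with the same denominator for all `κ` -/
def RecL (q : ℕ) (v : Fin r → Fin N → ℕ) (e : Finset (Fin r) → ℂ) (J : Finset (Fin N))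
    (T0 : ℂ) : Prop :=
  ∃ Q : Polynomial ℂ, Q.eval T0 ≠ 0 ∧ ∀ κ : Fin N → ℕ, (∀ i ∈ J, 1 ≤ κ i) →
    ∀ᶠ t : ℤ in atTop, ∑ m ∈ Finset.range (Q.natDegree + 1), Q.coeff m * aL q v e J κ (t - m) = 0

lemma rec_aL (q : ℕ) (hq : 2 ≤ q) (v : Fin r → Fin N → ℕ) (e : Finset (Fin r) → ℂ)
    (J : Finset (Fin N)) (κ : Fin N → ℕ) (Q : Polynomial ℂ)
    (h : Z q v (Polynomial.aeval (tau r) Q * (kE e * wL q v J κ))) :
    ∀ᶠ t : ℤ in atTop,
      ∑ m ∈ Finset.range (Q.natDegree + 1), Q.coeff m * aL q v e J κ (t - m) = 0 := by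
  have h1 : Tendsto (fun t : ℤ => t + 1) atTop atTop :=
    tendsto_atTop_add_const_right _ _ tendsto_id
  filter_upwards [h1.eventually h] with t ht
  have h2 : HasReg (gen q v (act r (Polynomial.aeval (tau r) Q * (kE e * wL q v J κ))
      (FG fun _ => 1)) ∅ (t + 1))
      (∑ m ∈ Finset.range (Q.natDegree + 1), Q.coeff m * aL q v e J κ (t - m)) := by
    have h3 : act r (Polynomial.aeval (tau r) Q * (kE e * wL q v J κ)) (FG fun _ => 1) =
        ∑ m ∈ Finset.range (Q.natDegree + 1),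
          Q.coeff m • act r (tau r ^ m * (kE e * wL q v J κ)) (FG fun _ => 1) := by
      rw [Polynomial.aeval_eq_sum_range, Finset.sum_mul, map_sum, LinearMap.sum_apply]
      refine Finset.sum_congr rfl fun m _ => ?_
      rw [smul_mul_assoc, map_smul, LinearMap.smul_apply]
    rw [h3, gen_sum]
    refine HasReg.sum _ _ _ fun m _ => ?_
    rw [gen_smul, gen_tau_pow]
    refine HasReg.smul _ ?_
    have h4 : t + 1 - (m : ℤ) = (t - m) + 1 := by ring
    rw [h4]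
    exact hasReg_aL q hq v e J κ (t - m)
  exact (ht.unique h2).symm

lemma wJ_wL (q : ℕ) (v : Fin r → Fin N → ℕ) (J : Finset (Fin N)) (κ : Fin N → ℕ)
    (hκ : ∀ i ∈ J, 1 ≤ κ i) :
    wJ q v J * (∏ i ∈ J, (C ((q : ℂ)⁻¹) * ∏ j, X j ^ v j i) ^ (κ i - 1)) = wL q v J κ := by
  classical
  unfold wJ wL
  rw [mul_assoc, ← Finset.prod_mul_distrib]
  congr 1
  refine Finset.prod_congr rfl fun i hi => ?_
  rw [← pow_succ', Nat.sub_add_cancel (hκ i hi)]

/-- the recurrence from the criterion -/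
theorem rec_of_critL (q : ℕ) (hq : 2 ≤ q) (v : Fin r → Fin N → ℕ) (p : Polynomial ℂ)
    (θ : Fin r → ℤ) (hrel : RelG v (Kil1 v) (KilU v θ) p)
    (e : Finset (Fin r) → ℂ) (J : Finset (Fin N))
    (he1 : KRelJ q v J e) (T0 : ℂ) (hT0 : T0 ≠ 0)
    (hp : p.eval ((-Real.log ‖T0‖ / Real.log q : ℝ) : ℂ) ≠ 0)
    (hc : ∀ w0, Crit q v (kE e * wJ q v J) T0 w0) : RecL q v e J T0 := by
  have hp0 : p ≠ 0 := by
    rintro rfl
    exact hp Polynomial.eval_zero
  set D : ℤ := ∑ j, |θ j| with hD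
  have hθD : ∀ j, 0 ≤ D - θ j := by
    intro j
    have h1 := Finset.single_le_sum (f := fun j => |θ j|) (fun j _ => abs_nonneg _)
      (Finset.mem_univ j)
    have h3 := le_abs_self (θ j)
    have h4 : |θ j| ≤ D := h1
    linarith
  obtain ⟨Q, hQ, hZ⟩ := coreU q hq v p θ D (fun j => (D - θ j).toNat)
    (fun j => Int.toNat_of_nonneg (hθD j)) hrel _ (kern_J hq v J e he1) T0 hT0 hp0
    (hc _)
  have h0 : p.rootMultiplicity ((-Real.log ‖T0‖ / Real.log q : ℝ) : ℂ) = 0 :=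
    Polynomial.rootMultiplicity_eq_zero hp
  refine ⟨Q, hQ, fun κ hκ => rec_aL q hq v e J κ Q ?_⟩
  have hZ := hZ (∏ i ∈ J, (C ((q : ℂ)⁻¹) * ∏ j, X j ^ v j i) ^ (κ i - 1))
  rw [h0, pow_zero, mul_one, mul_assoc (kE e), wJ_wL q v J κ hκ] at hZ
  exact hZ

/-- the recurrence for the strata `J ≠ univ` -/
theorem recL4J (q : ℕ) (hq : 2 ≤ q) (v : Fin r → Fin N → ℕ) (p : Polynomial ℂ)
    (θ : Fin r → ℤ) (hrel : RelG v (Kil1 v) (KilU v θ) p)
    (e : Finset (Fin r) → ℂ) (J : Finset (Fin N)) (hJ : J ≠ Finset.univ)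
    (he1 : KRelJ q v J e) (T0 : ℂ) (hT0 : T0 ≠ 0)
    (hp : p.eval ((-Real.log ‖T0‖ / Real.log q : ℝ) : ℂ) ≠ 0)
    (hσ : HypS4 v (Real.log ‖T0‖ / Real.log q)) : RecL q v e J T0 :=
  rec_of_critL q hq v p θ hrel e J he1 T0 hT0 hp
    fun w0 => crit4J q hq v e J hJ he1 T0 hT0 w0 hσ

/-- the recurrence for the strata `J ≠ univ`, level two -/
theorem recLTJ (q : ℕ) (hq : 2 ≤ q) {v : Fin r → Fin 4 → ℕ} (p : Polynomial ℂ)
    (θ : Fin r → ℤ) (hrel : RelG v (Kil1 v) (KilU v θ) p)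
    (e : Finset (Fin r) → ℂ) (J : Finset (Fin 4))
    (hP : ∀ i ∈ J, ∀ l ∈ J, i ≠ l → ∃ j, v j i = 0 ∧ v j l = 0)
    (he1 : KRelJ q v J e) (T0 : ℂ) (hT0 : T0 ≠ 0)
    (hp : p.eval ((-Real.log ‖T0‖ / Real.log q : ℝ) : ℂ) ≠ 0)
    (hlog : Real.log ‖T0‖ / Real.log q = 2) (hσ : HypT v) : RecL q v e J T0 :=
  rec_of_critL q hq v p θ hrel e J he1 T0 hT0 hp
    fun w0 => critTJ q hq e J hP he1 T0 hT0 w0 hlog hσ

/-- the coefficients vanish -/
lemma recL_zero (hr : 0 < r) (q : ℕ) (v : Fin r → Fin N → ℕ)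
    (e : Finset (Fin r) → ℂ) (J : Finset (Fin N)) (T0 : ℂ)
    (h : ∃ j, ∀ i ∈ J, v j i = 0) : RecL q v e J T0 := by
  classical
  refine ⟨1, by rw [Polynomial.eval_one]; exact one_ne_zero, fun κ _ => ?_⟩
  obtain ⟨j, hj⟩ := h
  rw [Filter.eventually_atTop]
  refine ⟨2, fun t ht => ?_⟩
  refine Finset.sum_eq_zero fun m hm => ?_
  rw [Polynomial.natDegree_one, Finset.mem_range] at hm
  have hm0 : m = 0 := by omega
  subst hm0
  have h1 : aL q v e J κ (t - (0 : ℕ)) = 0 := by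
    unfold aL
    refine (tsum_congr fun x => ?_).trans tsum_zero
    split_ifs with hx
    · have h2 : Wt v e (t - (0 : ℕ)) x = 0 := by
        unfold Wt
        rw [if_neg]
        intro h3
        have h4 := h3 j
        have h5 : ∑ i, x i * v j i = 0 := by
          refine Finset.sum_eq_zero fun i _ => ?_
          by_cases hi : i ∈ J
          · rw [hj i hi, mul_zero]
          · rw [hx.1 i hi, zero_mul]
        rw [h5] at h4
        push_cast at h4
        omega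
      rw [h2, mul_zero]
    · rfl
  rw [h1, mul_zero]

/-- the coefficients -/
lemma aL_phiV (v : Fin r → Fin N → ℕ) (V : Finset (Fin r)) (J : Finset (Fin N))
    (hb : ∀ j, InN (vV v V) Finset.univ (v j)) (q : ℕ) (e : Finset (Fin r) → ℂ)
    (κ : Fin N → ℕ) (hκ : ∀ i ∈ J, 1 ≤ κ i) (t : ℤ) :
    aL q (vV v V) (fun τ => e (PhiV v V J τ)) J κ t = aL q v e J κ t := by
  classical
  unfold aL
  refine tsum_congr fun x => ?_
  by_cases hx : (∀ i, i ∉ J → x i = 0) ∧ ∀ i ∈ J, κ i ≤ x i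
  swap
  · rw [if_neg hx, if_neg hx]
  rw [if_pos hx, if_pos hx]
  have hxJ : ∀ i, x i ≠ 0 ↔ i ∈ J := by
    intro i
    constructor
    · intro h
      by_contra hi
      exact h (hx.1 i hi)
    · intro hi
      have h1 := hx.2 i hi
      have h2 := hκ i hi
      omega
  rw [wt_phiV v V J hb e t x hxJ]

end Pool.Agent.Y228.PG
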