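import Pool.Agent.Y228.PK.Reg
import Pool.Agent.Y228.PG.Rec

/-!
# No poles of the p-adic zeta functions of all polydiscs, from the recurrences
-/

set_option autoImplicit false

namespace Pool.Agent.Y228.PG

open MeasureTheory Filter Topology
open Pool.Agent.W426.SM (gord ford)
open Pool.Agent.W803.SM (filt summable_half exists_gord)
open Pool.Agent.W425.PN (ford_eq qpoly spoly_eq)
open Pool.Agent.W425.BF (gam aux)
open Pool.Agent.TH216.MF
open Pool.Agent.TH216.G3
open Pool.Agent.Y231.N4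
open Pool.Agent.W422.LP (PD Wk)
open Pool.Agent.Y228.PL
open Pool.Agent.Y228.PK
open Pool.Agent.W880.SM Pool.Agent.W426.SM

variable {r : ℕ}

/-- the decomposition by the supports -/
lemma aK_sum {N : ℕ} (q : ℕ) (hq : 2 ≤ q) (v : Fin r → Fin N → ℕ) (e : Finset (Fin r) → ℂ)
    (ρ : Fin N → ℕ) (t : ℤ) : open Classical in
    aK q v e ρ t = ∑ J : Finset (Fin N), if ∀ i, ρ i ≠ 0 → i ∈ J then
      aL q v e J (fun i => max (ρ i) 1) t else 0 := by
  classical
  unfold aK aL
  have h1 : ∀ J : Finset (Fin N), (if ∀ i, ρ i ≠ 0 → i ∈ J then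
      ∑' x : Fin N → ℕ, (if (∀ i, i ∉ J → x i = 0) ∧ ∀ i ∈ J, max (ρ i) 1 ≤ x i then
        (q : ℂ)⁻¹ ^ (∑ i, x i) * Wt v e t x else 0) else 0) =
      ∑' x : Fin N → ℕ, (if ∀ i, ρ i ≠ 0 → i ∈ J then
        (if (∀ i, i ∉ J → x i = 0) ∧ ∀ i ∈ J, max (ρ i) 1 ≤ x i then
        (q : ℂ)⁻¹ ^ (∑ i, x i) * Wt v e t x else 0) else 0) := by
    intro J
    split_ifs
    · rfl
    · exact tsum_zero.symm
  simp only [h1]
  rw [← Summable.tsum_finsetSum]
  swap
  · intro J _
    by_cases hJ : ∀ i, ρ i ≠ 0 → i ∈ J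
    · simp only [if_pos hJ]
      exact summable_aL q hq v e J _ t
    · simp only [if_neg hJ]
      exact summable_zero
  refine tsum_congr fun x => ?_
  set X : Finset (Fin N) := Finset.univ.filter fun i => x i ≠ 0 with hX
  have hmem : ∀ i, i ∈ X ↔ x i ≠ 0 := fun i => by simp [hX]
  rw [Finset.sum_eq_single X]
  · by_cases hx : ∀ i, ρ i ≤ x i
    · rw [if_pos hx, if_pos fun i hi => (hmem i).2 (by
        have := hx i
        omega), if_pos ⟨fun i hi => by
          by_contra h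
          exact hi ((hmem i).2 h), fun i hi => by
          have h2 := hx i
          have h3 := (hmem i).1 hi
          omega⟩]
    · rw [if_neg hx]
      split_ifs with h2 h3
      · exfalso
        apply hx
        intro i
        by_cases hi : ρ i = 0
        · rw [hi]
          exact Nat.zero_le _
        · exact le_trans (le_max_left _ _) (h3.2 i (h2 i hi))
      · rfl
      · rfl
  · intro J _ hJ
    split_ifs with h2 h3
    · exfalso
      apply hJ
      ext i
      rw [hmem]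
      constructor
      · intro hi
        have := h3.2 i hi
        omega
      · intro hi
        by_contra h
        exact hi (h3.1 i h)
    · rfl
    · rfl
  · intro h
    exact absurd (Finset.mem_univ _) h

lemma aL_univ {N : ℕ} (q : ℕ) (v : Fin r → Fin N → ℕ) (e : Finset (Fin r) → ℂ)
    (κ : Fin N → ℕ) (t : ℤ) : aL q v e Finset.univ κ t = aK q v e κ t := by
  classical
  unfold aL aK
  refine tsum_congr fun x => ?_
  by_cases hx : ∀ i, κ i ≤ x i
  · rw [if_pos hx, if_pos ⟨fun i hi => absurd (Finset.mem_univ i) hi, fun i _ => hx i⟩]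
  · rw [if_neg hx, if_neg fun h => hx fun i => h.2 i (Finset.mem_univ i)]

/-- the products with the series are polynomials -/
lemma rs_of_recL {N : ℕ} {p : ℕ} {v : Fin r → Fin N → ℕ} {e : Finset (Fin r) → ℂ} {T0 : ℂ}
    {J : Finset (Fin N)} (κ : Fin N → ℕ) (hκ : ∀ i ∈ J, 1 ≤ κ i) (h : RecL p v e J T0) :
    RS T0 (PowerSeries.mk fun t : ℕ => aL p v e J κ t) := by
  obtain ⟨Q, hQ, h1⟩ := h
  obtain ⟨A, hA⟩ := rec_poly (fun t => aL p v e J κ t) Q (h1 κ hκ)
  exact ⟨Q, A, hQ, hA⟩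

/-- **The recurrences for the numbers of points, all polydiscs.** -/
theorem recEG (p : ℕ) (hp : 2 ≤ p) (v : Fin r → Fin 4 → ℕ) (hv : Function.Injective v)
    (ρ : Fin 4 → ℕ) (E : ℂ) (U : Finset (Fin r) → ℂ) (h : ERel p v E U) (T0 : ℂ)
    (hrec : ∀ e : Finset (Fin r) → ℂ, KRelJ p v Finset.univ e → KRelB p v e →
      RecK p v e T0)
    (hrecJ : ∀ J : Finset (Fin 4), J ≠ Finset.univ → (∀ i, ρ i ≠ 0 → i ∈ J) →
      ∀ e : Finset (Fin r) → ℂ, KRelJ p v J e → RecL p v e J T0) :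
    RS T0 (PowerSeries.mk fun t : ℕ => aK p v (fun τ => U τ - E * (p : ℂ)⁻¹) ρ t) := by
  classical
  have h1 : (PowerSeries.mk fun t : ℕ => aK p v (fun τ => U τ - E * (p : ℂ)⁻¹) ρ t) =
      ∑ J : Finset (Fin 4), if ∀ i, ρ i ≠ 0 → i ∈ J then
        PowerSeries.mk (fun t : ℕ =>
          aL p v (fun τ => U τ - E * (p : ℂ)⁻¹) J (fun i => max (ρ i) 1) t) else 0 := by
    ext t
    rw [map_sum, PowerSeries.coeff_mk, aK_sum p hp v _ ρ]
    refine Finset.sum_congr rfl fun J _ => ?_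
    split_ifs
    · rw [PowerSeries.coeff_mk]
    · rw [map_zero]
  rw [h1]
  refine RS.sum _ _ fun J _ => ?_
  split_ifs with hJρ
  · by_cases hJ : J = Finset.univ
    · subst hJ
      have h2 := recEK p hp v hv (fun i => max (ρ i) 1) (fun i => le_max_right _ _) E U h T0 hrec
      have h3 : (fun t : ℕ => aL p v (fun τ => U τ - E * (p : ℂ)⁻¹) Finset.univ
          (fun i => max (ρ i) 1) t) = fun t : ℕ => aK p v (fun τ => U τ - E * (p : ℂ)⁻¹)
          (fun i => max (ρ i) 1) t := by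
        funext t
        exact aL_univ _ _ _ _ _
      rw [h3]
      exact h2
    · refine rs_of_recL _ (fun i _ => le_max_right _ _) (hrecJ J hJ hJρ _ ?_)
      intro i _ j0 τ hj0 hτ
      have h2 := h.one i j0 τ hj0 hτ
      have hp0 : (p : ℂ) ≠ 0 := by exact_mod_cast (by omega : p ≠ 0)
      have h3 : (p : ℂ) * (p : ℂ)⁻¹ = 1 := mul_inv_cancel₀ hp0
      linear_combination h2 - E * h3
  · exact RS.zero T0

/-- **No pole.** -/
theorem padic_regG (hr : 0 < r) (v : Fin r → Fin 4 → ℕ) (hv : Function.Injective v)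
    (c : Fin r → ℚ) (h2 : ZMb 0 v c 1) :
    ∃ S : Finset ℕ, ∀ (p : ℕ) [Fact p.Prime], p ∉ S →
      ∀ [MeasurableSpace (Fin 4 → PadicInt p)] [BorelSpace (Fin 4 → PadicInt p)],
      ∀ ρ : Fin 4 → ℕ, ∀ F : ℂ → ℂ, MeromorphicOn F Set.univ →
        (∀ s : ℂ, 0 < s.re →
          F s = ∫ x in {x : Fin 4 → PadicInt p | ∀ i, ‖x i‖ ≤ (p : ℝ) ^ (-(ρ i : ℤ))},
                  ((‖MvPolynomial.eval₂ (algebraMap ℚ (Padic p))
                    (fun i => ((x i : PadicInt p) : Padic p)) (qpoly v c)‖ : ℝ) : ℂ) ^ s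
                  ∂(MeasureTheory.Measure.addHaar : MeasureTheory.Measure (Fin 4 → PadicInt p))) →
        ∀ s₀ : ℂ, s₀.re ≠ -1 →
          (∀ e : Finset (Fin r) → ℂ, KRelJ p v Finset.univ e → KRelB p v e →
            RecK p v e ((p : ℂ) ^ (-s₀))) →
          (∀ J : Finset (Fin 4), J ≠ Finset.univ → (∀ i, ρ i ≠ 0 → i ∈ J) →
            ∀ e : Finset (Fin r) → ℂ, KRelJ p v J e →
            RecL p v e J ((p : ℂ) ^ (-s₀))) →
          0 ≤ meromorphicOrderAt F s₀ := by
  classical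
  obtain ⟨S, hS⟩ := h2
  refine ⟨S, ?_⟩
  intro p hpf hpS hmeas hborel ρ F hF hFI s₀ hs1 hrec hrecJ
  obtain ⟨V, C₀, C₁, hV, hCR, hint⟩ := hS p hpS
  have hp : 2 ≤ p := hpf.out.two_le
  have hp0 : (p : ℂ) ≠ 0 := by exact_mod_cast (by omega : p ≠ 0)
  have hlog : Real.log p ≠ 0 := (Real.log_pos (by exact_mod_cast (by omega : 1 < p))).ne'
  obtain ⟨E, U, K, hER, heq⟩ := series_gamK p hp v ρ C₀ C₁ hCR
  set T0 : ℂ := (p : ℂ) ^ (-s₀) with hT0
  obtain ⟨Q, A, hQ, hQA⟩ := recEG p hp v hv ρ E U hER T0 hrec hrecJ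
  have hA := series_regK hr p hp v ρ _ Q A hQA
  have hpow : ∀ (a N : ℕ) (s : ℂ), (p : ℂ) ^ (-((a : ℂ) + s * N)) =
      (p : ℂ)⁻¹ ^ a * ((p : ℂ) ^ (-s)) ^ N := by
    intro a N s
    rw [neg_add, Complex.cpow_add _ _ hp0, Complex.cpow_neg, Complex.cpow_natCast, inv_pow,
      ← Complex.cpow_nat_mul]
    congr 2
    ring
  have hdt : Differentiable ℂ fun s : ℂ => (p : ℂ) ^ (-s) := Pool.Agent.W803.SM.diff_pow hp differentiable_id.neg
  have hfin : ((-((0 : ℕ) : ℤ) : ℤ) : WithTop ℤ) ≤ meromorphicOrderAt F s₀ →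
      (0 : WithTop ℤ) ≤ meromorphicOrderAt F s₀ := fun h => by simpa using h
  refine hfin (ord_bound F
    (fun s => Q.eval ((p : ℂ) ^ (-s)) * (1 - (p : ℂ) ^ (-(1 + s))))
    (fun s => V * (Q.eval ((p : ℂ) ^ (-s)) * K - (1 - (p : ℂ) ^ (-s)) * A.eval ((p : ℂ) ^ (-s))))
    ?_ ?_ hF ?_ s₀ 0 ?_)
  · refine ((Polynomial.differentiable Q).comp hdt).mul ?_
    exact (differentiable_const _).sub (Pool.Agent.W803.SM.diff_pow hp (by fun_prop))
  · refine (differentiable_const _).mul ?_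
    refine (((Polynomial.differentiable Q).comp hdt).mul (differentiable_const _)).sub ?_
    exact ((differentiable_const _).sub hdt).mul ((Polynomial.differentiable A).comp hdt)
  · intro s hs
    set t : ℂ := (p : ℂ) ^ (-s) with ht
    have ht1 : ‖t‖ < 1 := by
      rw [ht, Complex.norm_natCast_cpow_of_pos (by omega)]
      refine Real.rpow_lt_one_of_one_lt_of_neg (by exact_mod_cast (by omega : 1 < p)) ?_
      rw [Complex.neg_re]
      linarith
    have hX : (p : ℂ) ^ (-(1 + s)) = (p : ℂ)⁻¹ * t := by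
      have := hpow 1 1 s
      simpa using this
    have hX1 : 1 - (p : ℂ)⁻¹ * t ≠ 0 := by
      intro h
      have h3 : (p : ℂ)⁻¹ * t = 1 := (sub_eq_zero.1 h).symm
      have h4 : ‖(p : ℂ)⁻¹ * t‖ < 1 := by
        rw [norm_mul, norm_inv, Complex.norm_natCast]
        have h5 : ((p : ℝ))⁻¹ ≤ 1 := inv_le_one_of_one_le₀ (by exact_mod_cast (by omega : 1 ≤ p))
        calc (p : ℝ)⁻¹ * ‖t‖ ≤ 1 * ‖t‖ := by gcongr
          _ < 1 := by rw [one_mul]; exact ht1
      rw [h3, norm_one] at h4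
      exact lt_irrefl _ h4
    have hsum : ∀ u : Fin 4 → ℕ,
        (1 - (p : ℂ) ^ (-(1 + s))) * (Wk ρ p 0 v 1 s u *
                ((C₀ (Finset.univ.filter fun j => ∑ i, u i * v j i = gord v u) : ℂ) +
                  (C₁ (Finset.univ.filter fun j => ∑ i, u i * v j i = gord v u) : ℂ) *
                    ((p : ℂ) ^ (-(((1 : ℕ) : ℂ) * s)) /
                      (1 - (p : ℂ) ^ (-(1 + ((1 : ℕ) : ℂ) * s)))))) =
        if ∀ i, ρ i ≤ u i then
          (p : ℂ)⁻¹ ^ (∑ x, u x) * t ^ gord v u * (gam p C₀ C₁ (filt v u)).eval t else 0 := by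
      intro u
      unfold Pool.Agent.W422.LP.Wk
      by_cases hu : ∀ i, ρ i ≤ u i
      · rw [if_pos hu, if_pos hu]
        have e1 : Pool.Agent.W803.SM.W p 0 v 1 s u =
            (p : ℂ) ^ (-(((∑ i, u i : ℕ) : ℂ) + s * ford 0 v 1 u)) := rfl
        rw [e1, ford_eq, hpow, Nat.cast_one, one_mul, hX, ← ht]
        unfold gam
        simp only [Polynomial.eval_add, Polynomial.eval_mul, Polynomial.eval_C,
          Polynomial.eval_sub, Polynomial.eval_one, Polynomial.eval_X]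
        show _ = (p : ℂ)⁻¹ ^ (∑ x, u x) * t ^ gord v u *
          ((C₀ (Finset.univ.filter fun j => ∑ i, u i * v j i = gord v u) : ℂ) *
            (1 - (p : ℂ)⁻¹ * t) +
            (C₁ (Finset.univ.filter fun j => ∑ i, u i * v j i = gord v u) : ℂ) * t)
        exact aux _ _ _ _ _ hX1
      · rw [if_neg hu, if_neg hu, zero_mul, mul_zero]
    have hI : (1 - (p : ℂ) ^ (-(1 + s))) * F s = V * (K - (1 - t) * ∑' x : Fin 4 → ℕ,
        if ∀ i, ρ i ≤ x i then (p : ℂ)⁻¹ ^ (∑ i, x i) *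
          ((U ∅ - E * (p : ℂ)⁻¹) * ∑ t' ∈ Finset.range (gord v x), t ^ t' +
            (U (filt v x) - E * (p : ℂ)⁻¹) * t ^ gord v x) else 0) := by
      rw [hFI s hs, ← heq t ht1, ← tsum_congr hsum, tsum_mul_left]
      have h6 := hint ρ s hs
      have h7 : ∫ x in {x : Fin 4 → PadicInt p | ∀ i, ‖x i‖ ≤ (p : ℝ) ^ (-(ρ i : ℤ))},
                  ((‖MvPolynomial.eval₂ (algebraMap ℚ (Padic p))
                    (fun i => ((x i : PadicInt p) : Padic p)) (qpoly v c)‖ : ℝ) : ℂ) ^ s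
                  ∂(MeasureTheory.Measure.addHaar : MeasureTheory.Measure (Fin 4 → PadicInt p)) =
          ∫ x in PD p ρ, ((pval p (spoly 0 v c 1) x : ℝ) : ℂ) ^ s
              ∂(Measure.addHaar : Measure (Fin 4 → PadicInt p)) := by
        rw [spoly_eq]
        rfl
      rw [h7, h6]
      ring
    show Q.eval t * (1 - (p : ℂ) ^ (-(1 + s))) * F s =
      V * (Q.eval t * K - (1 - t) * A.eval t)
    rw [mul_assoc, hI, ← hA t ht1]
    ring
  · -- the order of `D`
    have ha1 : AnalyticAt ℂ (fun s : ℂ => Q.eval ((p : ℂ) ^ (-s)) * (1 - (p : ℂ) ^ (-(1 + s))))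
        s₀ := by
      refine Differentiable.analyticAt ?_ s₀
      refine ((Polynomial.differentiable Q).comp hdt).mul ?_
      exact (differentiable_const _).sub (Pool.Agent.W803.SM.diff_pow hp (by fun_prop))
    have hne : Q.eval ((p : ℂ) ^ (-s₀)) * (1 - (p : ℂ) ^ (-(1 + s₀))) ≠ 0 := by
      refine mul_ne_zero hQ fun h0 => ?_
      have h3 : (p : ℂ) ^ (-(1 + s₀)) = 1 := (sub_eq_zero.1 h0).symm
      have h4 := congrArg norm h3
      rw [Complex.norm_natCast_cpow_of_pos (by omega), norm_one] at h4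
      have h5 := congrArg Real.log h4
      rw [Real.log_rpow (by positivity), Real.log_one] at h5
      rcases mul_eq_zero.1 h5 with h6 | h6
      · apply hs1
        have h7 : (-(1 + s₀)).re = -1 - s₀.re := by
          simp
          ring
        rw [h7] at h6
        linarith
      · exact hlog h6
    rw [ha1.meromorphicOrderAt_eq, ha1.analyticOrderAt_eq_zero.2 hne]
    exact le_refl _

end Pool.Agent.Y228.PG
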